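import Pool.Agent.W854.IG.Stmts

/-!
IG-DSS (helper74): the Ding-Song-Sun inequality from the real-variable inequality and FKG.
-/

set_option autoImplicit false
set_option linter.unusedSectionVars false

open Finset

noncomputable section

namespace Pool.Agent.W74.IG

open Pool.Agent.W854.IG

section
variable {V ι : Type} [Fintype V] [DecidableEq V] [Fintype ι] (a b : ι → V) (J : ι → ℝ) (h : V → ℝ)

omit [Fintype V] [DecidableEq V] in
lemma ind3_eq (x y z : V) (s t r : Bool) (σ : V → Bool) :
    ind3 x y z s t r σ = ind2 x y s t σ * (if σ z = r then 1 else 0) := by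
  unfold ind3 ind2
  by_cases h1 : σ x = s <;> by_cases h2 : σ y = t <;> by_cases h3 : σ z = r <;> simp [h1, h2, h3]

omit [Fintype V] [DecidableEq V] in
lemma ind3_swap (x y z : V) (s t r : Bool) : ind3 y x z t s r = ind3 x y z s t r := by
  funext σ
  unfold ind3
  by_cases h1 : σ x = s <;> by_cases h2 : σ y = t <;> by_cases h3 : σ z = r <;> simp [h1, h2, h3]

lemma split3 (x y z : V) (s t : Bool) (g : Bool → ℝ) :
    Zf a b J h (fun σ => ind2 x y s t σ * g (σ z)) =
      g true * Zf a b J h (ind3 x y z s t true) + g false * Zf a b J h (ind3 x y z s t false) := by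
  unfold Zf
  rw [Finset.mul_sum, Finset.mul_sum, ← Finset.sum_add_distrib]
  refine Finset.sum_congr rfl fun σ _ => ?_
  rw [ind3_eq, ind3_eq]
  cases hz : σ z <;> simp [hz] <;> ring

lemma ind2_split (x y z : V) (s t : Bool) :
    Zf a b J h (ind2 x y s t) =
      Zf a b J h (ind3 x y z s t true) + Zf a b J h (ind3 x y z s t false) := by
  have := split3 a b J h x y z s t (fun _ => 1)
  simpa using this

lemma Z_add {J' : ι → ℝ} {t : ℝ} {y i : V}
    (hadd : ∀ (h : V → ℝ) σ, en a b J' h σ = en a b J h σ + t * (sp (σ y) * sp (σ i)))
    (x : V) (s s' : Bool) :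
    Zf a b J' h (ind2 x y s s') =
      Zf a b J h (fun σ => ind2 x y s s' σ * Real.exp (t * (sp s' * sp (σ i)))) := by
  unfold Zf
  refine Finset.sum_congr rfl fun σ _ => ?_
  unfold ind2
  by_cases h1 : σ x = s ∧ σ y = s'
  · simp only [if_pos h1]
    rw [hadd, Real.exp_add, h1.2]; ring
  · simp only [if_neg h1]; ring

lemma Z_field (c : ℝ) (i x y : V) (s s' : Bool) :
    Zf a b J (fun v => h v + if v = i then c else 0) (ind2 x y s s') =
      Zf a b J h (fun σ => ind2 x y s s' σ * Real.exp (c * sp (σ i))) := by
  unfold Zf
  refine Finset.sum_congr rfl fun σ _ => ?_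
  have : en a b J (fun v => h v + if v = i then c else 0) σ = en a b J h σ + c * sp (σ i) := by
    unfold en
    rw [add_assoc]
    congr 1
    simp only [add_mul, Finset.sum_add_distrib, ite_mul, zero_mul]
    rw [Finset.sum_ite_eq' Finset.univ i, if_pos (Finset.mem_univ _)]
  rw [this, Real.exp_add]
  ring

lemma Z_pos3 {x y z : V} (hxy : x ≠ y) (hxz : x ≠ z) (hyz : y ≠ z) (s t r : Bool) :
    0 < Zf a b J h (ind3 x y z s t r) := by
  unfold Zf
  refine Finset.sum_pos' (fun σ _ => ?_) ?_
  · unfold ind3
    split_ifs <;> simp [Real.exp_nonneg]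
  · refine ⟨fun v => if v = x then s else if v = y then t else r, Finset.mem_univ _, ?_⟩
    have h1 : ind3 x y z s t r (fun v => if v = x then s else if v = y then t else r) = 1 := by
      unfold ind3
      rw [if_pos]
      refine ⟨by simp, by simp [hxy.symm], by simp [hxz.symm, hyz.symm]⟩
    rw [h1, one_mul]
    exact Real.exp_pos _

lemma Z_nonneg2 {x y : V} (s t : Bool) : 0 ≤ Zf a b J h (ind2 x y s t) := by
  unfold Zf
  refine Finset.sum_nonneg fun σ _ => ?_
  unfold ind2
  split_ifs <;> simp [Real.exp_nonneg]

/-! ### contraction -/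

/-- contraction of `v` to `u` -/
def cmap {u v : V} (huv : u ≠ v) (p : V) : {p : V // p ≠ v} :=
  if hp : p = v then ⟨u, huv⟩ else ⟨p, hp⟩

lemma contr_en {u v : V} (huv : u ≠ v) (s' : {p : V // p ≠ v} → Bool) :
    en (cmap huv ∘ a) (cmap huv ∘ b) J (fun q => ∑ p, if cmap huv p = q then h p else 0) s' =
      en a b J h (s' ∘ cmap huv) := by
  unfold en
  congr 1
  simp only [Finset.sum_mul]
  rw [Finset.sum_comm]
  refine Finset.sum_congr rfl fun p _ => ?_
  simp only [ite_mul, zero_mul]
  rw [Finset.sum_ite_eq Finset.univ (cmap huv p), if_pos (Finset.mem_univ _)]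
  rfl

lemma contr {u v : V} (huv : u ≠ v) {p q : V} (hp : p ≠ v) (hq : q ≠ v) (s t : Bool) :
    Zf (cmap huv ∘ a) (cmap huv ∘ b) J (fun q => ∑ p, if cmap huv p = q then h p else 0)
      (ind2 ⟨p, hp⟩ ⟨q, hq⟩ s t) =
    Zf a b J h (fun σ => if σ v = σ u ∧ σ p = s ∧ σ q = t then 1 else 0) := by
  have hR : Zf a b J h (fun σ => if σ v = σ u ∧ σ p = s ∧ σ q = t then 1 else 0) =
      ∑ σ ∈ (Finset.univ : Finset (V → Bool)).filter (fun σ => σ v = σ u),
        (if σ p = s ∧ σ q = t then 1 else 0) * Real.exp (en a b J h σ) := by
    unfold Zf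
    rw [Finset.sum_filter]
    refine Finset.sum_congr rfl fun σ _ => ?_
    by_cases h1 : σ v = σ u
    · simp [h1]
    · simp [h1]
  rw [hR]
  unfold Zf
  refine Finset.sum_nbij' (i := fun s' => s' ∘ cmap huv) (j := fun σ q => σ q.1) ?_ ?_ ?_ ?_ ?_
  · intro s' _
    simp [cmap, huv]
  · intro σ _
    exact Finset.mem_univ _
  · intro s' _
    funext q
    simp [cmap, q.2]
  · intro σ hσ
    rw [Finset.mem_filter] at hσ
    funext p
    by_cases hp : p = v
    · simp [cmap, hp, hσ.2]
    · simp [cmap, hp]
  · intro s' _
    rw [contr_en]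
    congr 1
    simp [ind2, cmap, hp, hq]

/-! ### isolated vertex -/

lemma en_flip {y : V} (hy : ∀ e, a e = y ∨ b e = y → J e = 0) (σ : V → Bool) :
    en a b J h (Function.update σ y (!σ y)) = en a b J h σ - 2 * h y * sp (σ y) := by
  unfold en
  have h1 : ∑ e, J e * (sp (Function.update σ y (!σ y) (a e)) *
      sp (Function.update σ y (!σ y) (b e))) = ∑ e, J e * (sp (σ (a e)) * sp (σ (b e))) := by
    refine Finset.sum_congr rfl fun e _ => ?_
    by_cases h2 : a e = y ∨ b e = y
    · rw [hy e h2]; ring
    · push Not at h2
      rw [Function.update_of_ne h2.1, Function.update_of_ne h2.2]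
  have h2 : ∑ v, h v * sp (Function.update σ y (!σ y) v) =
      ∑ v, h v * sp (σ v) - 2 * h y * sp (σ y) := by
    rw [← Finset.add_sum_erase _ _ (Finset.mem_univ y),
      ← Finset.add_sum_erase _ (fun v => h v * sp (σ v)) (Finset.mem_univ y)]
    have h3 : ∑ v ∈ Finset.univ.erase y, h v * sp (Function.update σ y (!σ y) v) =
        ∑ v ∈ Finset.univ.erase y, h v * sp (σ v) := by
      refine Finset.sum_congr rfl fun v hv => ?_
      rw [Function.update_of_ne (Finset.ne_of_mem_erase hv)]
    rw [h3, Function.update_self, sp_not]
    ring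
  rw [h1, h2]
  ring

lemma Z_flip {y : V} (hy : ∀ e, a e = y ∨ b e = y → J e = 0) {x : V} (hxy : x ≠ y) (s : Bool) :
    Zf a b J h (ind2 x y s false) = Real.exp (-(2 * h y)) * Zf a b J h (ind2 x y s true) := by
  unfold Zf
  rw [Finset.mul_sum]
  refine Finset.sum_nbij' (i := fun σ => Function.update σ y (!σ y))
    (j := fun σ => Function.update σ y (!σ y)) ?_ ?_ ?_ ?_ ?_
  · intro σ _
    exact Finset.mem_univ _
  · intro σ _
    exact Finset.mem_univ _
  · intro σ _
    simp
  · intro σ _
    simp
  · intro σ _
    rw [en_flip a b J h hy σ]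
    unfold ind2
    rw [Function.update_of_ne hxy, Function.update_self]
    by_cases h1 : σ x = s ∧ σ y = false
    · rw [if_pos h1, if_pos ⟨h1.1, by rw [h1.2]; rfl⟩, h1.2, sp_false, one_mul, one_mul,
        ← Real.exp_add]
      congr 1
      ring
    · rw [if_neg h1, if_neg]
      · ring
      · rintro ⟨h2, h3⟩
        exact h1 ⟨h2, by simpa using h3⟩

/-! ### the inequality -/

/-- the inequality for one model -/
def D (x y : V) : Prop :=
  Zf a b J h (ind2 x y true true) * Zf a b J h (ind2 x y false false) *
      Zf a b J 0 (ind2 x y true false) ^ 2 ≤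
    Zf a b J h (ind2 x y true false) * Zf a b J h (ind2 x y false true) *
      Zf a b J 0 (ind2 x y true true) ^ 2

lemma D_base {y : V} (hy : ∀ e, a e = y ∨ b e = y → J e = 0) {x : V} (hxy : x ≠ y) :
    D a b J h x y := by
  unfold D
  rw [Z_flip a b J h hy hxy, Z_flip a b J h hy hxy, Z_flip a b J 0 hy hxy]
  have : Real.exp (-(2 * (0 : V → ℝ) y)) = 1 := by simp
  rw [this]
  apply le_of_eq
  ring

/-- couplings rescale the four partition functions -/
lemma D_scale {J' : ι → ℝ} {x y : V} {g : Bool → Bool → ℝ} (hg : ∀ s s', 0 ≤ g s s')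
    (hZ : ∀ (h : V → ℝ) s s', Zf a b J' h (ind2 x y s s') = g s s' * Zf a b J h (ind2 x y s s'))
    (hbal : g true true * g false false * g true false ^ 2 =
      g true false * g false true * g true true ^ 2)
    (hD : D a b J h x y) : D a b J' h x y := by
  unfold D at hD ⊢
  rw [hZ, hZ, hZ, hZ, hZ, hZ]
  calc _ = (g true true * g false false * g true false ^ 2) *
        (Zf a b J h (ind2 x y true true) * Zf a b J h (ind2 x y false false) *
          Zf a b J 0 (ind2 x y true false) ^ 2) := by ring
    _ ≤ (g true true * g false false * g true false ^ 2) *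
        (Zf a b J h (ind2 x y true false) * Zf a b J h (ind2 x y false true) *
          Zf a b J 0 (ind2 x y true true) ^ 2) := by
        refine mul_le_mul_of_nonneg_left hD ?_
        have h1 := hg true true
        have h2 := hg false false
        have h3 := hg true false
        positivity
    _ = _ := by rw [hbal]; ring

lemma D_loop {J' : ι → ℝ} {t : ℝ} {x y : V}
    (hadd : ∀ (h : V → ℝ) σ, en a b J' h σ = en a b J h σ + t * (sp (σ y) * sp (σ y)))
    (hD : D a b J h x y) : D a b J' h x y := by
  refine D_scale a b J h (g := fun _ _ => Real.exp t) (fun _ _ => (Real.exp_pos _).le) ?_ ?_ hD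
  · intro h s s'
    unfold Zf
    rw [Finset.mul_sum]
    refine Finset.sum_congr rfl fun σ _ => ?_
    rw [hadd, sp_mul_self, mul_one, Real.exp_add]
    ring
  · ring

lemma D_xedge {J' : ι → ℝ} {t : ℝ} {x y : V}
    (hadd : ∀ (h : V → ℝ) σ, en a b J' h σ = en a b J h σ + t * (sp (σ y) * sp (σ x)))
    (hD : D a b J h x y) : D a b J' h x y := by
  refine D_scale a b J h (g := fun s s' => Real.exp (t * (sp s' * sp s)))
    (fun _ _ => (Real.exp_pos _).le) ?_ ?_ hD
  · intro h s s'
    rw [Z_add a b J h hadd x s s']
    unfold Zf
    rw [Finset.mul_sum]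
    refine Finset.sum_congr rfl fun σ _ => ?_
    unfold ind2
    by_cases h1 : σ x = s ∧ σ y = s'
    · simp only [if_pos h1]
      rw [h1.1]; ring
    · simp only [if_neg h1]; ring
  · simp only [sp_true, sp_false, ← Real.exp_add, ← Real.exp_nat_mul]
    congr 1
    push_cast
    ring

lemma D_step (hRL : S_RL) (hFKG : S_FKG3) (hJ : ∀ e, 0 ≤ J e) {J' : ι → ℝ} {t : ℝ} (ht : 0 ≤ t)
    {x y i : V} (hxy : x ≠ y) (hxi : x ≠ i) (hyi : y ≠ i)
    (hadd : ∀ (h : V → ℝ) σ, en a b J' h σ = en a b J h σ + t * (sp (σ y) * sp (σ i)))
    (hD : ∀ h, D a b J h x y)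
    (h2 : Zf a b J h (ind3 x y i true true true) * Zf a b J h (ind3 x y i false false false) *
      Zf a b J 0 (ind3 x y i true false false) ^ 2 ≤
      Zf a b J h (ind3 x y i true false false) * Zf a b J h (ind3 x y i false true true) *
      Zf a b J 0 (ind3 x y i true true true) ^ 2)
    (h3 : Zf a b J h (ind3 x y i true true true) * Zf a b J h (ind3 x y i false false false) *
      Zf a b J 0 (ind3 x y i true true false) ^ 2 ≤
      Zf a b J h (ind3 x y i true true false) * Zf a b J h (ind3 x y i false false true) *
      Zf a b J 0 (ind3 x y i true true true) ^ 2) : D a b J' h x y := by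
  have hpos := fun (h : V → ℝ) s s' r => Z_pos3 a b J h hxy hxi hyi s s' r
  have hf1 := hFKG V ι a b J h x y i true hJ
  have hf2 := hFKG V ι a b J h x y i false hJ
  have hf3 := hFKG V ι a b J h y x i true hJ
  have hf4 := hFKG V ι a b J h y x i false hJ
  simp only [ind3_swap] at hf3 hf4
  have hH1 : ∀ τ : ℝ, 0 < τ →
      (τ * Zf a b J h (ind3 x y i true true true) + Zf a b J h (ind3 x y i true true false)) *
      (τ * Zf a b J h (ind3 x y i false false true) + Zf a b J h (ind3 x y i false false false)) *
      (Zf a b J 0 (ind3 x y i true false false) + Zf a b J 0 (ind3 x y i true false true)) ^ 2 ≤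
      (Zf a b J 0 (ind3 x y i true true true) + Zf a b J 0 (ind3 x y i true true false)) ^ 2 *
      ((τ * Zf a b J h (ind3 x y i true false true) + Zf a b J h (ind3 x y i true false false)) *
      (τ * Zf a b J h (ind3 x y i false true true) + Zf a b J h (ind3 x y i false true false))) := by
    intro τ hτ
    have h4 := hD (fun v => h v + if v = i then Real.log τ / 2 else 0)
    unfold D at h4
    simp only [Z_field] at h4
    rw [split3 a b J h x y i true true (fun r => Real.exp (Real.log τ / 2 * sp r)),
      split3 a b J h x y i false false (fun r => Real.exp (Real.log τ / 2 * sp r)),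
      split3 a b J h x y i true false (fun r => Real.exp (Real.log τ / 2 * sp r)),
      split3 a b J h x y i false true (fun r => Real.exp (Real.log τ / 2 * sp r)),
      ind2_split a b J 0 x y i true true, ind2_split a b J 0 x y i true false] at h4
    simp only [sp_true, sp_false] at h4
    obtain ⟨r, hr⟩ : ∃ r, r = Real.exp (Real.log τ / 2 * 1) := ⟨_, rfl⟩
    have hrpos : 0 < r := by rw [hr]; exact Real.exp_pos _
    have hr2 : r ^ 2 = τ := by
      rw [hr, ← Real.exp_nat_mul]
      have : ((2 : ℕ) : ℝ) * (Real.log τ / 2 * 1) = Real.log τ := by push_cast; ring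
      rw [this, Real.exp_log hτ]
    have hr' : Real.exp (Real.log τ / 2 * -1) = r⁻¹ := by
      rw [hr, ← Real.exp_neg]
      congr 1
      ring
    rw [hr', ← hr] at h4
    have h5 : ∀ A B : ℝ, τ * A + B = r * (r * A + r⁻¹ * B) := by
      intro A B
      rw [← hr2]
      field_simp
    rw [h5, h5, h5, h5]
    have h6 := mul_le_mul_of_nonneg_left h4 (sq_nonneg r)
    calc _ = _ := by ring
      _ ≤ _ := h6
      _ = _ := by ring
  have hw : (1 : ℝ) ≤ Real.exp (2 * t) := by
    rw [← Real.exp_zero]
    exact Real.exp_le_exp.2 (by linarith)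
  have hmain := hRL _ _ _ _ _ _ _ _ _ _ _ _ (Real.exp (2 * t)) 1
    (hpos h true true true) (hpos h false false true) (hpos h true false true)
    (hpos h false true true) (hpos h true true false) (hpos h false false false)
    (hpos h true false false) (hpos h false true false) (hpos 0 true true true)
    (hpos 0 true true false) (hpos 0 true false false) (hpos 0 true false true) hw one_pos hH1
    (by linarith) (by linarith) hf1 hf2 hf3 hf4
  unfold D
  simp only [Z_add a b J _ hadd]
  rw [split3 a b J h x y i true true (fun r => Real.exp (t * (sp true * sp r))),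
      split3 a b J h x y i false false (fun r => Real.exp (t * (sp false * sp r))),
      split3 a b J h x y i true false (fun r => Real.exp (t * (sp false * sp r))),
      split3 a b J h x y i false true (fun r => Real.exp (t * (sp true * sp r))),
      split3 a b J 0 x y i true true (fun r => Real.exp (t * (sp true * sp r))),
      split3 a b J 0 x y i true false (fun r => Real.exp (t * (sp false * sp r)))]
  simp only [sp_true, sp_false]
  have e1 : Real.exp (t * (1 * 1)) = Real.exp (-t) * Real.exp (2 * t) := by
    rw [← Real.exp_add]; congr 1; ring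
  have e2 : Real.exp (t * (-1 * -1)) = Real.exp (-t) * Real.exp (2 * t) := by
    rw [← Real.exp_add]; congr 1; ring
  have e3 : Real.exp (t * (1 * -1)) = Real.exp (-t) := by
    congr 1; ring
  have e4 : Real.exp (t * (-1 * 1)) = Real.exp (-t) := by
    congr 1; ring
  rw [e1, e2, e3, e4]
  have h7 := mul_le_mul_of_nonneg_left hmain (pow_nonneg (Real.exp_pos (-t)).le 4)
  calc _ = _ := by ring
    _ ≤ _ := h7
    _ = _ := by ring

/-- the couplings of the edges at `y` outside `F` are removed -/
def JF (y : V) (F : Finset ι) : ι → ℝ := by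
  classical exact fun e => if (a e = y ∨ b e = y) ∧ e ∉ F then 0 else J e

omit [Fintype V] in
lemma JF_nonneg (hJ : ∀ e, 0 ≤ J e) (y : V) (F : Finset ι) (e : ι) : 0 ≤ JF a b J y F e := by
  unfold JF
  split_ifs
  · exact le_rfl
  · exact hJ e

lemma JF_insert [DecidableEq ι] {y : V} {F : Finset ι} {e : ι} (he : e ∉ F) (hy : a e = y ∨ b e = y)
    (h : V → ℝ) (σ : V → Bool) :
    en a b (JF a b J y (insert e F)) h σ =
      en a b (JF a b J y F) h σ + J e * (sp (σ (a e)) * sp (σ (b e))) := by
  have h1 : ∀ e', JF a b J y (insert e F) e' = JF a b J y F e' + if e' = e then J e else 0 := by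
    intro e'
    unfold JF
    by_cases h2 : e' = e
    · subst h2
      simp [he, hy]
    · by_cases h3 : e' ∈ F <;> simp [h2, h3]
  unfold en
  simp only [h1, add_mul, Finset.sum_add_distrib, ite_mul, zero_mul]
  rw [Finset.sum_ite_eq' Finset.univ e, if_pos (Finset.mem_univ _)]
  ring

end

theorem main (hRL : S_RL) (hFKG : S_FKG3) : S_DSS := by
  have key : ∀ n : ℕ, ∀ (V ι : Type) [Fintype V] [DecidableEq V] [Fintype ι] (a b : ι → V)
      (J : ι → ℝ) (h : V → ℝ) (x y : V), Fintype.card V = n → x ≠ y → (∀ e, 0 ≤ J e) →
      D a b J h x y := by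
    intro n
    induction n using Nat.strong_induction_on with
    | _ n IH =>
      intro V ι _ _ _ a b J h x y hn hxy hJ
      classical
      have claim : ∀ F : Finset ι, ∀ h, D a b (JF a b J y F) h x y := by
        intro F
        induction F using Finset.induction_on with
        | empty =>
          intro h
          refine D_base a b _ h (fun e he => ?_) hxy
          unfold JF
          rw [if_pos ⟨he, Finset.notMem_empty _⟩]
        | insert e F he ih =>
          intro h
          by_cases hy : a e = y ∨ b e = y
          · -- the other end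
            obtain ⟨i, hi⟩ : ∃ i, ∀ σ : V → Bool,
                sp (σ (a e)) * sp (σ (b e)) = sp (σ y) * sp (σ i) := by
              rcases hy with hy | hy
              · exact ⟨b e, fun σ => by rw [hy]⟩
              · exact ⟨a e, fun σ => by rw [hy, mul_comm]⟩
            have hadd : ∀ (h : V → ℝ) σ, en a b (JF a b J y (insert e F)) h σ =
                en a b (JF a b J y F) h σ + J e * (sp (σ y) * sp (σ i)) := by
              intro h σ
              rw [JF_insert a b J he hy, hi]
            by_cases hiy : i = y
            · subst hiy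
              exact D_loop a b _ h hadd (ih h)
            by_cases hix : i = x
            · subst hix
              exact D_xedge a b _ h hadd (ih h)
            have hxi : x ≠ i := fun e => hix e.symm
            have hyi : y ≠ i := fun e => hiy e.symm
            have hc0 : ∀ (u v : V) (huv : u ≠ v),
                (fun q : {p : V // p ≠ v} => ∑ p, if cmap huv p = q then (0 : V → ℝ) p else 0) =
                  0 := by
              intro u v huv
              funext q
              simp
            refine D_step a b _ h hRL hFKG (JF_nonneg a b J hJ y F) (hJ e) hxy hxi hyi hadd ih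
              ?_ ?_
            · -- contraction `i ~ y`
              have h4 := IH (Fintype.card {p : V // p ≠ i})
                (by rw [← hn]; exact Fintype.card_subtype_lt (x := i) (by simp))
                {p : V // p ≠ i} ι (cmap hyi ∘ a) (cmap hyi ∘ b) (JF a b J y F)
                (fun q => ∑ p, if cmap hyi p = q then h p else 0) ⟨x, hxi⟩ ⟨y, hyi⟩ rfl
                (by simpa using hxy) (JF_nonneg a b J hJ y F)
              unfold D at h4
              have h5 : ∀ (h : V → ℝ) s t, Zf (cmap hyi ∘ a) (cmap hyi ∘ b) (JF a b J y F)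
                  (fun q => ∑ p, if cmap hyi p = q then h p else 0)
                  (ind2 ⟨x, hxi⟩ ⟨y, hyi⟩ s t) =
                  Zf a b (JF a b J y F) h (ind3 x y i s t t) := by
                intro h s t
                rw [contr a b (JF a b J y F) h hyi hxi hyi s t]
                congr 1
                funext σ
                unfold ind3
                congr 1
                apply propext
                constructor
                · rintro ⟨g1, g2, g3⟩
                  exact ⟨g2, g3, by rw [g1, g3]⟩
                · rintro ⟨g1, g2, g3⟩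
                  exact ⟨by rw [g2, g3], g1, g2⟩
              have h6 := h5 0
              rw [hc0] at h6
              simp only [h5, h6] at h4
              exact h4
            · -- contraction `x ~ y`
              have h4 := IH (Fintype.card {p : V // p ≠ y})
                (by rw [← hn]; exact Fintype.card_subtype_lt (x := y) (by simp))
                {p : V // p ≠ y} ι (cmap hxy ∘ a) (cmap hxy ∘ b) (JF a b J y F)
                (fun q => ∑ p, if cmap hxy p = q then h p else 0) ⟨x, hxy⟩ ⟨i, hiy⟩ rfl
                (by simpa using hxi) (JF_nonneg a b J hJ y F)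
              unfold D at h4
              have h5 : ∀ (h : V → ℝ) s t, Zf (cmap hxy ∘ a) (cmap hxy ∘ b) (JF a b J y F)
                  (fun q => ∑ p, if cmap hxy p = q then h p else 0)
                  (ind2 ⟨x, hxy⟩ ⟨i, hiy⟩ s t) =
                  Zf a b (JF a b J y F) h (ind3 x y i s s t) := by
                intro h s t
                rw [contr a b (JF a b J y F) h hxy hxy hiy s t]
                congr 1
                funext σ
                unfold ind3
                congr 1
                apply propext
                constructor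
                · rintro ⟨g1, g2, g3⟩
                  exact ⟨g2, by rw [g1, g2], g3⟩
                · rintro ⟨g1, g2, g3⟩
                  exact ⟨by rw [g2, g1], g1, g3⟩
              have h6 := h5 0
              rw [hc0] at h6
              simp only [h5, h6] at h4
              exact h4
          · have : JF a b J y (insert e F) = JF a b J y F := by
              funext e'
              unfold JF
              by_cases h2 : e' = e
              · subst h2
                simp [hy]
              · simp [h2]
            rw [this]
            exact ih h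
      have h1 := claim Finset.univ h
      have h2 : JF a b J y Finset.univ = J := by
        funext e
        unfold JF
        simp
      rw [h2] at h1
      exact h1
  intro V ι _ _ _ a b J h x y hxy hJ
  exact key _ V ι a b J h x y rfl hxy hJ

end Pool.Agent.W74.IG
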