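import Pool.Agent.W854.IG.Base

/-!
IG-EXIST (helper74): existence of the plus phase.
-/

set_option autoImplicit false

open MeasureTheory Filter Topology

noncomputable section

namespace Pool.Agent.W74.IG.EXIST

open Pool.Agent.W854.IG

lemma box_mono {n m : ℕ} (h : n ≤ m) : box n ⊆ box m := by
  intro p hp
  rw [mem_box] at hp ⊢
  have : (n : ℤ) ≤ m := by exact_mod_cast h
  omega

lemma edges_mono {n m : ℕ} (h : n ≤ m) : edges n ⊆ edges m := by
  intro e he
  rw [mem_edges] at he ⊢
  rcases he with he | he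
  · exact Or.inl (box_mono h he)
  · exact Or.inr (box_mono h he)

/-- the expectation of a monotone function decreases with the box -/
lemma anti (hS : S_SAND) {β : ℝ} (hβ : 0 ≤ β) {f : (Pt → Bool) → ℝ} (hf : Monotone f) :
    Antitone fun n => avL β (box n) (fun _ => true) (edges n) f := by
  intro n m hnm
  have h1 := (hS Pt (Pt × Bool) (edges m) Prod.fst nb (fun _ => β) (fun _ _ => hβ) (box n) (box m)
    (fun _ => true) (fun _ => true) (box_mono hnm) f hf).1 (fun _ _ _ => rfl) (fun _ _ => le_rfl)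
  have h2 := av_edges (Λ := box n) (fun _ => true) Prod.fst nb (fun _ => β) f (edges_mono hnm)
    (fun e _ he => by
      rw [mem_edges] at he
      push Not at he
      exact he)
  show av (box m) (fun _ => true) (edges m) Prod.fst nb (fun _ => β) f ≤
    av (box n) (fun _ => true) (edges n) Prod.fst nb (fun _ => β) f
  rw [← h2]
  exact h1

/-- indicator of a plus at `p` -/
def chi (p : Pt) : C(Pt → Bool, ℝ) :=
  ⟨fun σ => if σ p then 1 else 0,
    (continuous_of_discreteTopology (f := fun b : Bool => if b then (1 : ℝ) else 0)).comp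
      (continuous_apply p)⟩

lemma chi_mono (p : Pt) : Monotone (chi p : (Pt → Bool) → ℝ) := by
  intro σ σ' h
  have h1 := h p
  show (if σ p then (1 : ℝ) else 0) ≤ if σ' p then 1 else 0
  rcases Bool.eq_false_or_eq_true (σ p) with g | g
  · have g' : σ' p = true := by
      rw [g] at h1
      exact top_le_iff.1 h1
    rw [g, g']
  · rw [g]
    simp only [Bool.false_eq_true, if_false]
    split_ifs <;> norm_num

/-- products of indicators are monotone and nonnegative -/
lemma closure_prop {g : C(Pt → Bool, ℝ)} (hg : g ∈ Submonoid.closure (Set.range chi)) :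
    Monotone (g : (Pt → Bool) → ℝ) ∧ ∀ σ, 0 ≤ g σ := by
  induction hg using Submonoid.closure_induction with
  | mem x hx =>
    obtain ⟨p, rfl⟩ := hx
    refine ⟨chi_mono p, fun σ => ?_⟩
    show (0 : ℝ) ≤ if σ p then (1 : ℝ) else 0
    split_ifs <;> norm_num
  | one => exact ⟨fun _ _ _ => le_rfl, fun _ => zero_le_one⟩
  | mul x y hx hy hx' hy' =>
    refine ⟨fun σ σ' h => ?_, fun σ => mul_nonneg (hx'.2 σ) (hy'.2 σ)⟩
    exact mul_le_mul (hx'.1 h) (hy'.1 h) (hy'.2 σ) (hx'.2 σ')

/-- the algebra generated by the indicators -/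
def Alg : Subalgebra ℝ C(Pt → Bool, ℝ) := Algebra.adjoin ℝ (Set.range chi)

lemma Alg_sep : Alg.SeparatesPoints := by
  intro σ σ' h
  obtain ⟨p, hp⟩ := Function.ne_iff.1 h
  refine ⟨chi p, ⟨chi p, Algebra.subset_adjoin ⟨p, rfl⟩, rfl⟩, ?_⟩
  show (if σ p then (1 : ℝ) else 0) ≠ if σ' p then 1 else 0
  cases g : σ p <;> cases g' : σ' p <;> simp
  · exact hp (by rw [g, g'])
  · exact hp (by rw [g, g'])

lemma integrable_cont (μ : Measure (Pt → Bool)) [IsProbabilityMeasure μ] (f : C(Pt → Bool, ℝ)) :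
    Integrable (f : (Pt → Bool) → ℝ) μ := by
  refine Integrable.of_bound f.continuous.aestronglyMeasurable ‖f‖ (Eventually.of_forall fun σ => ?_)
  exact f.norm_coe_le_norm σ

lemma integral_near (μ : Measure (Pt → Bool)) [IsProbabilityMeasure μ] (f g : C(Pt → Bool, ℝ)) :
    |∫ σ, g σ ∂μ - ∫ σ, f σ ∂μ| ≤ ‖g - f‖ := by
  rw [← integral_sub (integrable_cont μ g) (integrable_cont μ f)]
  have h1 : ∀ σ, ‖g σ - f σ‖ ≤ ‖g - f‖ := fun σ => (g - f).norm_coe_le_norm σ
  have h2 := norm_integral_le_of_norm_le_const (μ := μ) (Eventually.of_forall h1)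
  simpa using h2

theorem main (hS : S_SAND) : S_EXIST := by
  intro β hβ
  obtain ⟨u, hu⟩ : ∃ u : ℕ → ProbabilityMeasure (Pt → Bool),
      ∀ n, (u n : Measure (Pt → Bool)) = plusMeasure β n :=
    ⟨fun n => ⟨plusMeasure β n, plusMeasure_prob β n⟩, fun n => rfl⟩
  obtain ⟨U, hU⟩ : ∃ U : Ultrafilter ℕ, (U : Filter ℕ) ≤ atTop :=
    ⟨Ultrafilter.of atTop, Ultrafilter.of_le _⟩
  obtain ⟨μ, hμ⟩ : ∃ μ, Tendsto u U (𝓝 μ) := ⟨_, (U.map u).le_nhds_lim⟩
  have hμf : ∀ f : C(Pt → Bool, ℝ), Tendsto (fun n => ∫ σ, f σ ∂(plusMeasure β n)) U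
      (𝓝 (∫ σ, f σ ∂(μ : Measure (Pt → Bool)))) := by
    intro f
    have h := ((ProbabilityMeasure.continuous_integral_continuousMap f).tendsto μ).comp hμ
    refine h.congr fun n => ?_
    rw [Function.comp_apply, hu]
  have hclos : ∀ g ∈ Submonoid.closure (Set.range chi),
      Tendsto (fun n => ∫ σ, g σ ∂(plusMeasure β n)) atTop
        (𝓝 (∫ σ, g σ ∂(μ : Measure (Pt → Bool)))) := by
    intro g hg
    obtain ⟨h1, h2⟩ := closure_prop hg
    have h3 : Antitone fun n => ∫ σ, g σ ∂(plusMeasure β n) := by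
      simp only [plusMeasure_integral]
      exact anti hS hβ h1
    have h4 : BddBelow (Set.range fun n => ∫ σ, g σ ∂(plusMeasure β n)) := by
      refine ⟨0, ?_⟩
      rintro _ ⟨n, rfl⟩
      exact integral_nonneg h2
    have h5 := tendsto_atTop_ciInf h3 h4
    have h6 := tendsto_nhds_unique (hμf g) (h5.mono_left hU)
    rw [h6]
    exact h5
  have halg : ∀ g ∈ Alg, Tendsto (fun n => ∫ σ, g σ ∂(plusMeasure β n)) atTop
        (𝓝 (∫ σ, g σ ∂(μ : Measure (Pt → Bool)))) := by
    intro g hg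
    have hg' : g ∈ Submodule.span ℝ (Submonoid.closure (Set.range chi) : Set C(Pt → Bool, ℝ)) := by
      rw [← Algebra.adjoin_eq_span]
      exact hg
    clear hg
    have hpr : ∀ n, IsProbabilityMeasure (plusMeasure β n) := plusMeasure_prob β
    induction hg' using Submodule.span_induction with
    | mem x hx => exact hclos x hx
    | zero => simp
    | add x y hx hy hx' hy' =>
      have h1 := hx'.add hy'
      have h2 : ∀ ν : Measure (Pt → Bool), IsProbabilityMeasure ν →
          ∫ σ, (x + y) σ ∂ν = ∫ σ, x σ ∂ν + ∫ σ, y σ ∂ν := by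
        intro ν hν
        rw [← integral_add (integrable_cont ν x) (integrable_cont ν y)]
        rfl
      rw [h2 _ inferInstance]
      refine h1.congr fun n => ?_
      rw [h2 _ (hpr n)]
    | smul c x hx hx' =>
      have h1 := hx'.const_mul c
      have h2 : ∀ ν : Measure (Pt → Bool), ∫ σ, (c • x) σ ∂ν = c * ∫ σ, x σ ∂ν := by
        intro ν
        rw [← integral_const_mul]
        rfl
      rw [h2]
      refine h1.congr fun n => ?_
      rw [h2]
  refine ⟨μ, inferInstance, fun f => ?_⟩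
  rw [Metric.tendsto_atTop]
  intro ε hε
  obtain ⟨⟨g, hg⟩, hgf⟩ := ContinuousMap.exists_mem_subalgebra_near_continuousMap_of_separatesPoints
    Alg Alg_sep f (ε / 3) (by positivity)
  simp only at hgf
  have h1 := halg g hg
  rw [Metric.tendsto_atTop] at h1
  obtain ⟨N, hN⟩ := h1 (ε / 3) (by positivity)
  refine ⟨N, fun n hn => ?_⟩
  have h2 := hN n hn
  have hpr : IsProbabilityMeasure (plusMeasure β n) := plusMeasure_prob β n
  have h3 := integral_near (plusMeasure β n) f g
  have h4 := integral_near (μ : Measure (Pt → Bool)) f g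
  rw [Real.dist_eq] at h2 ⊢
  rw [abs_le] at h3 h4
  rw [abs_lt] at h2 ⊢
  constructor <;> linarith [h2.1, h2.2, h3.1, h3.2, h4.1, h4.2]

end Pool.Agent.W74.IG.EXIST
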