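import Pool.Agent.W854.IG.Stmts

/-!
IG-PIN (helper74): influence of the boundary with pinned spins.
-/

set_option autoImplicit false
set_option linter.unusedSectionVars false

open Finset

noncomputable section

namespace Pool.Agent.W74.IG.PIN

open Pool.Agent.W854.IG

lemma real_ineq {A B C D r0 t0 : ℝ} (hA : 0 < A) (hB : 0 < B) (hC : 0 < C) (hD : 0 < D)
    (hr : 0 < r0) (ht : 0 < t0) (h1 : C * D ≤ A * B) (h2 : A * B * t0 ^ 2 ≤ C * D * r0 ^ 2) :
    (A - D) / (A + D) - (C - B) / (C + B) ≤ 2 * ((r0 - t0) / (r0 + t0)) := by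
  obtain ⟨r, hr1⟩ : ∃ r, r = √(A * B) := ⟨_, rfl⟩
  obtain ⟨t, ht1⟩ : ∃ t, t = √(C * D) := ⟨_, rfl⟩
  have hr2 : r ^ 2 = A * B := by rw [hr1]; exact Real.sq_sqrt (by positivity)
  have ht2 : t ^ 2 = C * D := by rw [ht1]; exact Real.sq_sqrt (by positivity)
  have hrp : 0 < r := by rw [hr1]; exact Real.sqrt_pos.2 (by positivity)
  have htp : 0 < t := by rw [ht1]; exact Real.sqrt_pos.2 (by positivity)
  have htr : t ≤ r := by
    rw [hr1, ht1]
    exact Real.sqrt_le_sqrt h1
  have h3 : r * t0 ≤ t * r0 := by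
    have : (r * t0) ^ 2 ≤ (t * r0) ^ 2 := by
      rw [mul_pow, mul_pow, hr2, ht2]
      exact h2
    exact (pow_le_pow_iff_left₀ (by positivity) (by positivity) two_ne_zero).1 this
  have h4 : 2 * (r * t) ≤ A * C + D * B := by
    have : (2 * (r * t)) ^ 2 ≤ (A * C + D * B) ^ 2 := by
      have : (2 * (r * t)) ^ 2 = 4 * (r ^ 2 * t ^ 2) := by ring
      rw [this, hr2, ht2]
      nlinarith [sq_nonneg (A * C - D * B)]
    exact (pow_le_pow_iff_left₀ (by positivity) (by positivity) two_ne_zero).1 this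
  have h5 : (r + t) ^ 2 ≤ (A + D) * (C + B) := by
    nlinarith
  have h6 : (A - D) / (A + D) - (C - B) / (C + B) =
      2 * (r ^ 2 - t ^ 2) / ((A + D) * (C + B)) := by
    rw [hr2, ht2, div_sub_div _ _ (by positivity) (by positivity)]
    congr 1
    ring
  rw [h6]
  have h7 : 2 * (r ^ 2 - t ^ 2) / ((A + D) * (C + B)) ≤ 2 * (r ^ 2 - t ^ 2) / (r + t) ^ 2 := by
    apply div_le_div_of_nonneg_left _ (by positivity) h5
    nlinarith
  refine h7.trans ?_
  have h8 : 2 * (r ^ 2 - t ^ 2) / (r + t) ^ 2 = 2 * ((r - t) / (r + t)) := by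
    field_simp
    ring
  rw [h8]
  refine mul_le_mul_of_nonneg_left ?_ (by norm_num)
  rw [div_le_div_iff₀ (by positivity) (by positivity)]
  nlinarith

section
variable {V ι : Type} [Fintype V] [DecidableEq V] [Fintype ι] (a b : ι → V) (J : ι → ℝ) (h : V → ℝ)

lemma Z_pos2 {x y : V} (hxy : x ≠ y) (s t : Bool) : 0 < Zf a b J h (ind2 x y s t) := by
  unfold Zf
  refine Finset.sum_pos' (fun σ _ => ?_) ?_
  · unfold ind2
    split_ifs <;> simp [Real.exp_nonneg]
  · refine ⟨fun v => if v = x then s else t, Finset.mem_univ _, ?_⟩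
    have h1 : ind2 x y s t (fun v => if v = x then s else t) = 1 := by
      unfold ind2
      rw [if_pos]
      exact ⟨by simp, by simp [hxy.symm]⟩
    rw [h1, one_mul]
    exact Real.exp_pos _

lemma Z_gflip (x y : V) (s t : Bool) :
    Zf a b J 0 (ind2 x y s t) = Zf a b J 0 (ind2 x y (!s) (!t)) := by
  unfold Zf
  refine Finset.sum_nbij' (i := fun σ v => !σ v) (j := fun σ v => !σ v) ?_ ?_ ?_ ?_ ?_
  · intro σ _
    exact Finset.mem_univ _
  · intro σ _
    exact Finset.mem_univ _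
  · intro σ _
    simp
  · intro σ _
    simp
  · intro σ _
    have h1 : en a b J 0 (fun v => !σ v) = en a b J 0 σ := by
      unfold en
      congr 1
      · refine Finset.sum_congr rfl fun e _ => ?_
        rw [sp_not, sp_not]
        ring
      · simp
    rw [h1]
    congr 1
    unfold ind2
    by_cases g1 : σ x = s <;> by_cases g2 : σ y = t <;> simp [g1, g2]

end

/-! ### configurations on `Option A` -/

section
variable {A ι : Type} [Fintype A] [DecidableEq A] [Fintype ι] (a b : ι → Option A) (J : ι → ℝ)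
  (h : Option A → ℝ)

/-- configuration on `Option A` -/
def O (s : Bool) (σ : A → Bool) : Option A → Bool := fun o => o.elim s σ

lemma Zf_option (x : A) (s1 s : Bool) :
    Zf a b J h (ind2 (some x) none s1 s) =
      ∑ σ : A → Bool, (if σ x = s1 then 1 else 0) * Real.exp (en a b J h (O s σ)) := by
  have h1 : (∑ σ : A → Bool, (if σ x = s1 then 1 else 0) * Real.exp (en a b J h (O s σ))) =
      ∑ σ' ∈ (Finset.univ : Finset (Option A → Bool)).filter (fun σ' => σ' none = s),
        (if σ' (some x) = s1 then 1 else 0) * Real.exp (en a b J h σ') := by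
    refine Finset.sum_nbij' (i := fun σ => O s σ) (j := fun σ' p => σ' (some p)) ?_ ?_ ?_ ?_ ?_
    · intro σ _
      simp [O]
    · intro σ _
      exact Finset.mem_univ _
    · intro σ _
      rfl
    · intro σ' hσ'
      rw [Finset.mem_filter] at hσ'
      funext o
      cases o with
      | none => exact hσ'.2.symm
      | some p => rfl
    · intro σ _
      rfl
  rw [h1, Finset.sum_filter]
  unfold Zf
  refine Finset.sum_congr rfl fun σ _ => ?_
  unfold ind2
  by_cases g1 : σ (some x) = s1 <;> by_cases g2 : σ none = s <;> simp [g1, g2]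

lemma sum_sp (x : A) (s : Bool) :
    ∑ σ : A → Bool, sp (σ x) * Real.exp (en a b J h (O s σ)) =
      Zf a b J h (ind2 (some x) none true s) - Zf a b J h (ind2 (some x) none false s) := by
  rw [Zf_option, Zf_option, ← Finset.sum_sub_distrib]
  refine Finset.sum_congr rfl fun σ _ => ?_
  cases g : σ x <;> simp

lemma sum_one (x : A) (s : Bool) :
    ∑ σ : A → Bool, Real.exp (en a b J h (O s σ)) =
      Zf a b J h (ind2 (some x) none true s) + Zf a b J h (ind2 (some x) none false s) := by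
  rw [Zf_option, Zf_option, ← Finset.sum_add_distrib]
  refine Finset.sum_congr rfl fun σ _ => ?_
  cases g : σ x <;> simp

end

/-! ### pinned spins -/

section
variable {P ι : Type} [DecidableEq P] (Λ L : Finset P) (E : Finset ι) (a b : ι → P) (J : ι → ℝ)
  (τ : P → Bool)

/-- the map to `Option Λ` -/
def cc (p : P) : Option Λ := if h : p ∈ Λ then some ⟨p, h⟩ else none

/-- couplings of the reduced model -/
def J' (e : E) : ℝ := if a e ∉ L ∧ b e ∉ L then J e else 0

/-- field of the reduced model -/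
def h' (v : Option Λ) : ℝ :=
  ∑ e ∈ E, ((if a e ∈ L ∧ b e ∉ L ∧ cc Λ (b e) = v then J e * sp (τ (a e)) else 0) +
    (if a e ∉ L ∧ b e ∈ L ∧ cc Λ (a e) = v then J e * sp (τ (b e)) else 0))

/-- constant of the reduced model -/
def K : ℝ := ∑ e ∈ E, if a e ∈ L ∧ b e ∈ L then J e * (sp (τ (a e)) * sp (τ (b e))) else 0

lemma ext_eq_L (hΛL : Disjoint Λ L) (s : Bool) (σ : Λ → Bool) {p : P} (hp : p ∈ L) :
    ext Λ (pin L τ s) σ p = τ p := by
  rw [ext_not_mem (fun h => Finset.disjoint_left.1 hΛL h hp)]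
  simp [pin, hp]

lemma ext_eq_notL (s : Bool) (σ : Λ → Bool) {p : P} (hp : p ∉ L) :
    ext Λ (pin L τ s) σ p = O s σ (cc Λ p) := by
  by_cases h : p ∈ Λ
  · rw [ext_mem h]
    simp [cc, h, O]
  · rw [ext_not_mem h]
    simp [cc, h, O, pin, hp]

lemma Hg_eq (hΛL : Disjoint Λ L) (s : Bool) (σ : Λ → Bool) :
    Hg E a b J (ext Λ (pin L τ s) σ) =
      en (fun e : E => cc Λ (a e)) (fun e : E => cc Λ (b e)) (J' L E a b J)
        (h' Λ L E a b J τ) (O s σ) + K L E a b J τ := by
  have h1 : ∑ v, h' Λ L E a b J τ v * sp (O s σ v) =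
      ∑ e ∈ E, ((if a e ∈ L ∧ b e ∉ L then J e * sp (τ (a e)) * sp (O s σ (cc Λ (b e))) else 0) +
        (if a e ∉ L ∧ b e ∈ L then J e * sp (τ (b e)) * sp (O s σ (cc Λ (a e))) else 0)) := by
    unfold h'
    simp only [Finset.sum_mul]
    rw [Finset.sum_comm]
    refine Finset.sum_congr rfl fun e _ => ?_
    simp only [add_mul, Finset.sum_add_distrib]
    congr 1
    · by_cases g : a e ∈ L ∧ b e ∉ L
      · simp only [g.1, g.2, not_false_eq_true, true_and, ite_mul, zero_mul, if_true]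
        rw [Finset.sum_ite_eq Finset.univ (cc Λ (b e)), if_pos (Finset.mem_univ _)]
      · rw [if_neg g]
        refine Finset.sum_eq_zero fun v _ => ?_
        rw [if_neg (fun g' => g ⟨g'.1, g'.2.1⟩), zero_mul]
    · by_cases g : a e ∉ L ∧ b e ∈ L
      · simp only [g.1, g.2, not_false_eq_true, true_and, ite_mul, zero_mul, if_true]
        rw [Finset.sum_ite_eq Finset.univ (cc Λ (a e)), if_pos (Finset.mem_univ _)]
      · rw [if_neg g]
        refine Finset.sum_eq_zero fun v _ => ?_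
        rw [if_neg (fun g' => g ⟨g'.1, g'.2.1⟩), zero_mul]
  unfold en
  rw [h1]
  have h2 : ∑ e : E, J' L E a b J e * (sp (O s σ (cc Λ (a e))) * sp (O s σ (cc Λ (b e)))) =
      ∑ e ∈ E, (if a e ∉ L ∧ b e ∉ L then J e else 0) *
        (sp (O s σ (cc Λ (a e))) * sp (O s σ (cc Λ (b e)))) := by
    rw [← Finset.sum_coe_sort E (fun e => (if a e ∉ L ∧ b e ∉ L then J e else 0) *
        (sp (O s σ (cc Λ (a e))) * sp (O s σ (cc Λ (b e)))))]
    rfl
  rw [h2]
  unfold K Hg
  rw [← Finset.sum_add_distrib, ← Finset.sum_add_distrib]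
  refine Finset.sum_congr rfl fun e _ => ?_
  by_cases ga : a e ∈ L <;> by_cases gb : b e ∈ L
  · rw [ext_eq_L Λ L τ hΛL s σ ga, ext_eq_L Λ L τ hΛL s σ gb]
    simp [ga, gb]
  · rw [ext_eq_L Λ L τ hΛL s σ ga, ext_eq_notL Λ L τ s σ gb]
    simp [ga, gb]
    ring
  · rw [ext_eq_notL Λ L τ s σ ga, ext_eq_L Λ L τ hΛL s σ gb]
    simp [ga, gb]
    ring
  · rw [ext_eq_notL Λ L τ s σ ga, ext_eq_notL Λ L τ s σ gb]
    simp [ga, gb]

lemma Hg_eq0 (σ : Λ → Bool) :
    Hg (E.filter (fun e => a e ∉ L ∧ b e ∉ L)) a b J (ext Λ (fun _ => true) σ) =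
      en (fun e : E => cc Λ (a e)) (fun e : E => cc Λ (b e)) (J' L E a b J) 0 (O true σ) := by
  have h0 : ∀ p, ext Λ (fun _ => true) σ p = O true σ (cc Λ p) := by
    intro p
    by_cases h : p ∈ Λ
    · rw [ext_mem h]
      simp [cc, h, O]
    · rw [ext_not_mem h]
      simp [cc, h, O]
  unfold en Hg
  have h2 : ∑ e : E, J' L E a b J e * (sp (O true σ (cc Λ (a e))) * sp (O true σ (cc Λ (b e)))) =
      ∑ e ∈ E, (if a e ∉ L ∧ b e ∉ L then J e else 0) *
        (sp (O true σ (cc Λ (a e))) * sp (O true σ (cc Λ (b e)))) := by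
    rw [← Finset.sum_coe_sort E (fun e => (if a e ∉ L ∧ b e ∉ L then J e else 0) *
        (sp (O true σ (cc Λ (a e))) * sp (O true σ (cc Λ (b e)))))]
    rfl
  rw [h2, Finset.sum_filter]
  simp only [Pi.zero_apply, zero_mul, Finset.sum_const_zero, add_zero]
  refine Finset.sum_congr rfl fun e _ => ?_
  rw [h0, h0]
  by_cases g : a e ∉ L ∧ b e ∉ L
  · rw [if_pos g, if_pos g]
  · rw [if_neg g, if_neg g, zero_mul]

end

theorem main (hDSS : S_DSS) (hFKG : S_FKG2) : S_PIN := by
  intro P ι _ Λ L E a b J τ x hΛL hx hJ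
  have hJ' : ∀ e : E, 0 ≤ J' L E a b J e := by
    intro e
    unfold J'
    split_ifs
    · exact hJ e e.2
    · exact le_rfl
  have hxy : (some ⟨x, hx⟩ : Option Λ) ≠ none := by simp
  obtain ⟨Z, hZ⟩ : ∃ Z : (Option Λ → ℝ) → Bool → Bool → ℝ, Z = fun h s t =>
      Zf (fun e : E => cc Λ (a e)) (fun e : E => cc Λ (b e)) (J' L E a b J) h
        (ind2 (some ⟨x, hx⟩) none s t) := ⟨_, rfl⟩
  obtain ⟨g, hg⟩ : ∃ g, g = h' Λ L E a b J τ := ⟨_, rfl⟩
  have hpos : ∀ h s t, 0 < Z h s t := by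
    intro h s t
    rw [hZ]
    exact Z_pos2 _ _ _ _ hxy s t
  have hav : ∀ s : Bool, av Λ (pin L τ s) E a b J (fun σ => sp (σ x)) =
      (Z g true s - Z g false s) / (Z g true s + Z g false s) := by
    intro s
    unfold av Zg
    rw [sum_cf, sum_cf]
    have h1 : ∑ σ : Λ → Bool, sp (ext Λ (pin L τ s) σ x) *
        Real.exp (Hg E a b J (ext Λ (pin L τ s) σ)) =
        Real.exp (K L E a b J τ) * (Z g true s - Z g false s) := by
      rw [hZ]
      simp only
      rw [← sum_sp, Finset.mul_sum]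
      refine Finset.sum_congr rfl fun σ _ => ?_
      rw [Hg_eq Λ L E a b J τ hΛL, Real.exp_add, ext_mem hx, hg]
      ring
    have h2 : ∑ σ : Λ → Bool, 1 * Real.exp (Hg E a b J (ext Λ (pin L τ s) σ)) =
        Real.exp (K L E a b J τ) * (Z g true s + Z g false s) := by
      rw [hZ]
      simp only
      rw [← sum_one, Finset.mul_sum]
      refine Finset.sum_congr rfl fun σ _ => ?_
      rw [Hg_eq Λ L E a b J τ hΛL, Real.exp_add, hg]
      ring
    rw [h1, h2, mul_div_mul_left _ _ (Real.exp_pos _).ne']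
  have hav0 : av Λ (fun _ => true) (E.filter (fun e => a e ∉ L ∧ b e ∉ L)) a b J
      (fun σ => sp (σ x)) =
      (Z 0 true true - Z 0 false true) / (Z 0 true true + Z 0 false true) := by
    unfold av Zg
    rw [sum_cf, sum_cf]
    rw [hZ]
    simp only
    rw [← sum_one, ← sum_sp]
    congr 1
    · refine Finset.sum_congr rfl fun σ _ => ?_
      rw [Hg_eq0, ext_mem hx]
    · refine Finset.sum_congr rfl fun σ _ => ?_
      rw [Hg_eq0, one_mul]
  have hflip : Z 0 true false = Z 0 false true := by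
    rw [hZ]
    exact Z_gflip _ _ _ _ _ _ _
  have hF := hFKG (Option Λ) E (fun e : E => cc Λ (a e)) (fun e : E => cc Λ (b e))
    (J' L E a b J) g (some ⟨x, hx⟩) none hJ'
  have hD := hDSS (Option Λ) E (fun e : E => cc Λ (a e)) (fun e : E => cc Λ (b e))
    (J' L E a b J) g (some ⟨x, hx⟩) none hxy hJ'
  have hF' : Z g true false * Z g false true ≤ Z g true true * Z g false false := by
    rw [hZ]; exact hF
  have hD' : Z g true true * Z g false false * Z 0 true false ^ 2 ≤
      Z g true false * Z g false true * Z 0 true true ^ 2 := by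
    rw [hZ]; exact hD
  rw [hflip] at hD'
  rw [hav, hav, hav0]
  exact real_ineq (hpos _ _ _) (hpos _ _ _) (hpos _ _ _) (hpos _ _ _) (hpos _ _ _) (hpos _ _ _)
    hF' hD'

end Pool.Agent.W74.IG.PIN
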